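import Mathlib
import Pool.Agent.TH841.PM.BadB

/-!
# Project LS: the count for pairs, one-dimensional facts
-/

set_option autoImplicit false

namespace Pool.Agent.TH841.LS.CNT2f

open Finset Polynomial Pool.Agent.TH841.PM.BADf

/-- the primes `p` with `p ^ 2 ∣ a` -/
def Qs (a : ℤ) : Finset ℕ := a.natAbs.primeFactors.filter (fun p => (p : ℤ) ^ 2 ∣ a)

/-- the number of the prime divisors greater than `X` -/
lemma card_large {a : ℤ} (ha : a ≠ 0) (X k : ℕ) (hX : a.natAbs < (X + 1) ^ (k + 1)) :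
    (a.natAbs.primeFactors.filter (fun p => X < p)).card ≤ k := by
  set n := a.natAbs with hn
  have hn0 : n ≠ 0 := Int.natAbs_ne_zero.2 ha
  by_contra h
  push Not at h
  have h3 : ∏ p ∈ n.primeFactors.filter (fun p => X < p), p ∣ n := by
    refine (prod_dvd_prod_of_subset _ _ _ (filter_subset _ _)).trans ?_
    exact Nat.prod_primeFactors_dvd n
  have h4 : (X + 1) ^ (n.primeFactors.filter (fun p => X < p)).card ≤
      ∏ p ∈ n.primeFactors.filter (fun p => X < p), p := by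
    rw [← prod_const]
    refine prod_le_prod' fun p hp => ?_
    have := (mem_filter.1 hp).2
    omega
  have h5 : (X + 1) ^ (k + 1) ≤ (X + 1) ^ (n.primeFactors.filter (fun p => X < p)).card :=
    Nat.pow_le_pow_right (by omega) h
  have h6 := Nat.le_of_dvd (Nat.pos_of_ne_zero hn0) h3
  omega

/-- the primes `p ≤ X` with `p ^ 2 ∣ a` -/
def Qx (X : ℕ) (a : ℤ) : Finset ℕ := (Ioc 1 X).filter (fun p => (p : ℤ) ^ 2 ∣ a)

lemma card_Qs {a : ℤ} (ha : a ≠ 0) (X k : ℕ) (hX : a.natAbs < (X + 1) ^ (k + 1)) :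
    (Qs a).card ≤ (Qx X a).card + k := by
  have h1 : Qs a ⊆ Qx X a ∪ a.natAbs.primeFactors.filter (fun p => X < p) := by
    intro p hp
    unfold Qs at hp
    rw [mem_filter] at hp
    have hpp := Nat.prime_of_mem_primeFactors hp.1
    rw [mem_union]
    unfold Qx
    rw [mem_filter, mem_filter, mem_Ioc]
    by_cases h : p ≤ X
    · exact Or.inl ⟨⟨hpp.one_lt, h⟩, hp.2⟩
    · exact Or.inr ⟨hp.1, by omega⟩
  exact (card_le_card h1).trans ((card_union_le _ _).trans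
    (Nat.add_le_add_left (card_large ha X k hX) _))

lemma sum_inv_sq (X : ℕ) : ∑ p ∈ Ioc 1 X, (1 : ℝ) / (p : ℝ) ^ 2 ≤ 1 := by
  rcases Nat.lt_or_ge X 1 with h | h
  · rw [Ioc_eq_empty (by omega)]
    simp
  have key : ∀ X : ℕ, 1 ≤ X → ∑ p ∈ Ioc 1 X, (1 : ℝ) / (p : ℝ) ^ 2 ≤ 1 - 1 / X := by
    intro X hX
    induction X, hX using Nat.le_induction with
    | base => simp
    | succ X hX ih =>
      rw [sum_Ioc_succ_top (by omega)]
      have hX0 : (0 : ℝ) < X := by exact_mod_cast hX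
      have h1 : (1 : ℝ) / ((X + 1 : ℕ) : ℝ) ^ 2 ≤ 1 / X - 1 / ((X + 1 : ℕ) : ℝ) := by
        push_cast
        rw [div_sub_div _ _ hX0.ne' (by positivity), div_le_div_iff₀ (by positivity) (by positivity)]
        nlinarith
      linarith
  have := key X h
  have h0 : (0 : ℝ) ≤ 1 / X := by positivity
  linarith

lemma sum_Qx (N : ℤ) (X : ℕ) : ∑ a ∈ Ioc N (N + X), ((Qx X a).card : ℝ) ≤ 2 * X := by
  have h1 : ∑ a ∈ Ioc N (N + X), ((Qx X a).card : ℝ) =
      ∑ p ∈ Ioc 1 X, (((Ioc N (N + X)).filter (fun t => (p : ℤ) ^ 2 ∣ t)).card : ℝ) := by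
    simp only [Qx, card_filter]
    push_cast
    rw [sum_comm]
  rw [h1]
  have h2 : ∀ p ∈ Ioc 1 X, (((Ioc N (N + X)).filter (fun t => (p : ℤ) ^ 2 ∣ t)).card : ℝ) ≤
      X * (1 / (p : ℝ) ^ 2) + 1 := by
    intro p hp
    rw [mem_Ioc] at hp
    have h3 := (cnt_mod N X (p ^ 2) (pow_pos (by omega) 2) 0).1
    have h4 : (Ioc N (N + X)).filter (fun t => (p : ℤ) ^ 2 ∣ t) =
        (Ioc N (N + X)).filter (fun t => t ≡ 0 [ZMOD (p ^ 2 : ℕ)]) := by
      apply filter_congr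
      intro t _
      rw [Int.modEq_zero_iff_dvd]
      push_cast
      rfl
    rw [h4]
    push_cast at h3 ⊢
    rw [mul_one_div]
    exact h3
  refine (sum_le_sum h2).trans ?_
  rw [sum_add_distrib, ← mul_sum, sum_const, nsmul_eq_mul, mul_one, Nat.card_Ioc]
  have h3 := mul_le_mul_of_nonneg_left (sum_inv_sq X) (Nat.cast_nonneg X : (0 : ℝ) ≤ X)
  have h4 : ((X - 1 : ℕ) : ℝ) ≤ X := by exact_mod_cast Nat.sub_le X 1
  linarith

/-- few arguments are divisible by many squares of primes -/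
lemma few_sq (k : ℕ) (η ε : ℝ) (hη : 0 < η) (hε : 0 < ε) : ∃ X0 : ℕ, ∀ (N : ℤ) (X : ℕ), X0 ≤ X →
    (∀ a ∈ Ioc N (N + (X : ℤ)), a.natAbs < (X + 1) ^ (k + 1)) →
    (((Ioc N (N + (X : ℤ))).filter (fun a => a ≠ 0 ∧
      η * Real.log (Real.log X) < ((Qs a).card : ℝ))).card : ℝ) ≤ ε * X := by
  have e1 := tendsto_LL.eventually_ge_atTop ((2 / ε + k) / η)
  obtain ⟨X0, hX0⟩ := Filter.eventually_atTop.1 e1
  refine ⟨X0, fun N X hX hN => ?_⟩
  have h1 := hX0 X hX
  rw [div_le_iff₀ hη] at h1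
  set L := Real.log (Real.log X) with hL
  set S := (Ioc N (N + (X : ℤ))).filter (fun a => a ≠ 0 ∧ η * L < ((Qs a).card : ℝ)) with hS
  have h2 : ∀ a ∈ S, 2 / ε ≤ ((Qx X a).card : ℝ) := by
    intro a ha
    rw [hS, mem_filter] at ha
    have h3 := card_Qs ha.2.1 X k (hN a ha.1)
    have h4 : ((Qs a).card : ℝ) ≤ (Qx X a).card + k := by exact_mod_cast h3
    linarith [ha.2.2]
  have h3 : (S.card : ℝ) * (2 / ε) ≤ 2 * X := by
    refine le_trans ?_ (sum_Qx N X)
    rw [← nsmul_eq_mul, ← sum_const]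
    refine (sum_le_sum h2).trans (sum_le_sum_of_subset_of_nonneg (filter_subset _ _) ?_)
    intro _ _ _
    positivity
  have h4 : (S.card : ℝ) * (2 / ε) = (S.card * 2) / ε := by ring
  rw [h4, div_le_iff₀ hε] at h3
  linarith

end Pool.Agent.TH841.LS.CNT2f
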