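import Mathlib
import Pool.Agent.TH79.LS.Cnt2A

/-!
# Project LS: the count for pairs
-/

set_option autoImplicit false

namespace Pool.Agent.TH841.LS.CNT2f

open Finset Polynomial Pool.Agent.TH841.PM.BADf

/-- copy of `Pool.Agent.TH841.LS.GA` -/
def GAx (A B : ℤ) : Finset ℕ := (A * B).natAbs.primeFactors.filter (fun p => 11 ≤ p ∧
  ¬ (p : ℤ) ∣ A - B ∧ (Odd (padicValInt p A) ∨ Odd (padicValInt p B)))

/-- copy of `Pool.Agent.TH841.LS.C1` -/
def C1x (A B : ℤ) : Finset ℕ := (A - B).natAbs.primeFactors.filter (fun p => 11 ≤ p ∧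
  ¬ Odd (padicValInt p A))

/-- the good primes of `a` -/
def Gd (D a : ℤ) : Finset ℕ := a.natAbs.primeFactors.filter (fun p => 11 ≤ p ∧ ¬ (p : ℤ) ∣ D ∧
  ¬ (p : ℤ) ^ 2 ∣ a)

lemma card_Gd {D a : ℤ} (hD : D ≠ 0) :
    a.natAbs.primeFactors.card ≤ (Gd D a).card + (Qs a).card + (D.natAbs.primeFactors.card + 11) := by
  have h1 : a.natAbs.primeFactors ⊆ (Gd D a ∪ Qs a) ∪ (D.natAbs.primeFactors ∪ range 11) := by
    intro p hp
    have hpp := Nat.prime_of_mem_primeFactors hp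
    rw [mem_union, mem_union, mem_union]
    unfold Gd Qs
    rw [mem_filter, mem_filter, mem_range, Nat.mem_primeFactors (n := D.natAbs)]
    by_cases h1 : 11 ≤ p
    · by_cases h2 : (p : ℤ) ∣ D
      · exact Or.inr (Or.inl ⟨hpp, Int.natCast_dvd.1 h2, Int.natAbs_ne_zero.2 hD⟩)
      · by_cases h3 : (p : ℤ) ^ 2 ∣ a
        · exact Or.inl (Or.inr ⟨hp, h3⟩)
        · exact Or.inl (Or.inl ⟨hp, h1, h2, h3⟩)
    · exact Or.inr (Or.inr (by omega))
  have h2 := card_le_card h1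
  have h3 := card_union_le (Gd D a ∪ Qs a) (D.natAbs.primeFactors ∪ range 11)
  have h4 := card_union_le (Gd D a) (Qs a)
  have h5 := card_union_le D.natAbs.primeFactors (range 11)
  rw [card_range] at h5
  omega

lemma val_one {D a : ℤ} {p : ℕ} (hp : p.Prime) (hD : D ≠ 0) (ha : a ≠ 0) (h1 : ¬ (p : ℤ) ∣ D)
    (h2 : (p : ℤ) ∣ a) (h3 : ¬ (p : ℤ) ^ 2 ∣ a) : Odd (padicValInt p (D * a)) := by
  haveI := Fact.mk hp
  rw [padicValInt.mul hD ha]
  have h4 : padicValInt p D = 0 := padicValInt.eq_zero_of_not_dvd h1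
  have h5 : padicValInt p a = 1 := by
    have h6 : 1 ≤ padicValInt p a := by
      have := (padicValInt_dvd_iff 1 a).1 (by rwa [pow_one])
      rcases this with h | h
      · exact absurd h ha
      · exact h
    have h7 : ¬ 2 ≤ padicValInt p a := fun h => h3 ((padicValInt_dvd_iff 2 a).2 (Or.inr h))
    omega
  rw [h4, h5]
  exact odd_one

lemma Gd_sub_left {D a b : ℤ} (hD : D ≠ 0) (ha : a ≠ 0) (hb : b ≠ 0) (hab : IsCoprime a b) :
    Gd D a ⊆ GAx (D * a) (D * b) := by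
  intro p hp
  unfold Gd at hp
  unfold GAx
  rw [mem_filter] at hp ⊢
  obtain ⟨h1, h2, h3, h4⟩ := hp
  have hpp := Nat.prime_of_mem_primeFactors h1
  have hpi : Prime (p : ℤ) := Nat.prime_iff_prime_int.1 hpp
  have hpa : (p : ℤ) ∣ a := Int.natCast_dvd.2 (Nat.dvd_of_mem_primeFactors h1)
  refine ⟨?_, h2, ?_, Or.inl (val_one hpp hD ha h3 hpa h4)⟩
  · rw [Nat.mem_primeFactors]
    refine ⟨hpp, Int.natCast_dvd.1 ?_, Int.natAbs_ne_zero.2 (by positivity)⟩
    exact dvd_mul_of_dvd_left (dvd_mul_of_dvd_right hpa _) _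
  · intro h
    rw [← mul_sub] at h
    rcases hpi.dvd_or_dvd h with h | h
    · exact h3 h
    · have hpb : (p : ℤ) ∣ b := by
        have := dvd_sub hpa h
        rwa [sub_sub_cancel] at this
      exact hpi.not_unit (hab.isUnit_of_dvd' hpa hpb)

lemma Gd_sub_right {D a b : ℤ} (hD : D ≠ 0) (ha : a ≠ 0) (hb : b ≠ 0) (hab : IsCoprime a b) :
    Gd D b ⊆ GAx (D * a) (D * b) := by
  intro p hp
  unfold Gd at hp
  unfold GAx
  rw [mem_filter] at hp ⊢
  obtain ⟨h1, h2, h3, h4⟩ := hp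
  have hpp := Nat.prime_of_mem_primeFactors h1
  have hpi : Prime (p : ℤ) := Nat.prime_iff_prime_int.1 hpp
  have hpb : (p : ℤ) ∣ b := Int.natCast_dvd.2 (Nat.dvd_of_mem_primeFactors h1)
  refine ⟨?_, h2, ?_, Or.inr (val_one hpp hD hb h3 hpb h4)⟩
  · rw [Nat.mem_primeFactors]
    refine ⟨hpp, Int.natCast_dvd.1 ?_, Int.natAbs_ne_zero.2 (by positivity)⟩
    exact dvd_mul_of_dvd_right (dvd_mul_of_dvd_right hpb _) _
  · intro h
    rw [← mul_sub] at h
    rcases hpi.dvd_or_dvd h with h | h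
    · exact h3 h
    · have hpa : (p : ℤ) ∣ a := by
        have := dvd_add h hpb
        rwa [sub_add_cancel] at this
      exact hpi.not_unit (hab.isUnit_of_dvd' hpa hpb)

lemma Gd_disj {D a b : ℤ} (hab : IsCoprime a b) : Disjoint (Gd D a) (Gd D b) := by
  rw [disjoint_left]
  intro p h1 h2
  unfold Gd at h1 h2
  rw [mem_filter] at h1 h2
  have hpp := Nat.prime_of_mem_primeFactors h1.1
  have hpi : Prime (p : ℤ) := Nat.prime_iff_prime_int.1 hpp
  exact hpi.not_unit (hab.isUnit_of_dvd' (Int.natCast_dvd.2 (Nat.dvd_of_mem_primeFactors h1.1))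
    (Int.natCast_dvd.2 (Nat.dvd_of_mem_primeFactors h2.1)))

/-- the main inequality -/
lemma main_ineq {D a b : ℤ} (hD : D ≠ 0) (ha : a ≠ 0) (hb : b ≠ 0) (hne : a ≠ b)
    (hab : IsCoprime a b) :
    a.natAbs.primeFactors.card + b.natAbs.primeFactors.card + (C1x (D * a) (D * b)).card ≤
      (GAx (D * a) (D * b)).card + (Qs a).card + (Qs b).card + (a - b).natAbs.primeFactors.card +
        (3 * D.natAbs.primeFactors.card + 22) := by
  have h1 := card_Gd (a := a) hD
  have h2 := card_Gd (a := b) hD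
  have h3 : (Gd D a).card + (Gd D b).card ≤ (GAx (D * a) (D * b)).card := by
    rw [← card_union_of_disjoint (Gd_disj hab)]
    exact card_le_card (union_subset (Gd_sub_left hD ha hb hab) (Gd_sub_right hD ha hb hab))
  have h4 : (C1x (D * a) (D * b)).card ≤ D.natAbs.primeFactors.card +
      (a - b).natAbs.primeFactors.card := by
    refine (card_le_card (filter_subset _ _)).trans ?_
    rw [← mul_sub, Int.natAbs_mul, Nat.primeFactors_mul (Int.natAbs_ne_zero.2 hD)
      (Int.natAbs_ne_zero.2 (sub_ne_zero.2 hne))]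
    exact card_union_le _ _
  omega

end Pool.Agent.TH841.LS.CNT2f
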