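import Mathlib
import Pool.Agent.TH79.LS.Cnt2B

/-!
# Project LS: the count for pairs
-/

set_option autoImplicit false

namespace Pool.Agent.TH841.LS.CNT2f

open Finset Polynomial Pool.Agent.TH841.PM.BADf

/-- the exceptional arguments -/
noncomputable def Bd (N : ℤ) (X : ℕ) (η : ℝ) : Finset ℤ := by
  classical
  exact (Ioc N (N + (X : ℤ))).filter (fun a => a = 0 ∨
    (a ≠ 0 ∧ η * Real.log (Real.log X) <
      |((a.natAbs.primeFactors.card : ℕ) : ℝ) - Real.log (Real.log X)|) ∨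
    (a ≠ 0 ∧ η * Real.log (Real.log X) < ((Qs a).card : ℝ)))

lemma mem_Bd {N : ℤ} {X : ℕ} {η : ℝ} {a : ℤ} : a ∈ Bd N X η ↔ a ∈ Ioc N (N + (X : ℤ)) ∧ (a = 0 ∨
    (a ≠ 0 ∧ η * Real.log (Real.log X) <
      |((a.natAbs.primeFactors.card : ℕ) : ℝ) - Real.log (Real.log X)|) ∨
    (a ≠ 0 ∧ η * Real.log (Real.log X) < ((Qs a).card : ℝ))) := by
  classical
  unfold Bd
  rw [mem_filter]

/-- the normal order of the number of the prime factors in short intervals -/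
def NO : Prop := ∀ (B : ℕ) (δ ε : ℝ), 0 < δ → 0 < ε → ∃ M0 : ℕ, ∀ (N : ℤ) (M : ℕ), M0 ≤ M →
  |N| ≤ (M : ℤ) ^ B → ((Ex (X : ℤ[X]) N M δ).card : ℝ) ≤ ε * M

lemma card_Bd (hNO : NO) (B : ℕ) (η ε : ℝ) (hη : 0 < η) (hε : 0 < ε) : ∃ X0 : ℕ,
    ∀ (N : ℤ) (X : ℕ), X0 ≤ X → |N| ≤ (X : ℤ) ^ B → ((Bd N X η).card : ℝ) ≤ ε * X := by
  classical
  obtain ⟨M1, hM1⟩ := hNO B η (ε / 3) hη (by positivity)
  obtain ⟨M2, hM2⟩ := few_sq (B + 1) η (ε / 3) hη (by positivity)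
  obtain ⟨M3, hM3⟩ := exists_nat_ge (3 / ε)
  refine ⟨M1 + M2 + M3 + 1, fun N X hX hN => ?_⟩
  have h1 := hM1 N X (by omega) hN
  have hX1 : 1 ≤ X := by omega
  have h2 := hM2 N X (by omega) (fun a ha => by
    rw [mem_Ioc] at ha
    have e1 : N.natAbs ≤ X ^ B := by
      have : ((N.natAbs : ℕ) : ℤ) ≤ ((X ^ B : ℕ) : ℤ) := by
        push_cast
        exact hN
      exact_mod_cast this
    have e2 : a.natAbs ≤ X ^ B + X := by omega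
    have e3 : X ^ B ≤ (X + 1) ^ (B + 1) := (Nat.pow_le_pow_left (by omega) B).trans
      (Nat.pow_le_pow_right (by omega) (by omega))
    have e4 : X + 1 ≤ (X + 1) ^ (B + 1) := Nat.le_self_pow (by omega) _
    have e5 : (X + 1) ^ (B + 1 + 1) = (X + 1) ^ (B + 1) * X + (X + 1) ^ (B + 1) := by ring
    have e6 : (X + 1) ^ (B + 1) * 1 ≤ (X + 1) ^ (B + 1) * X := Nat.mul_le_mul_left _ hX1
    omega)
  have h3 : Bd N X η ⊆ ({0} ∪ Ex (Polynomial.X : ℤ[X]) N X η) ∪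
      (Ioc N (N + (X : ℤ))).filter (fun a => a ≠ 0 ∧
        η * Real.log (Real.log X) < ((Qs a).card : ℝ)) := by
    intro a ha
    rw [mem_Bd] at ha
    rw [mem_union, mem_union, mem_singleton, mem_Ex, mem_filter, Polynomial.eval_X]
    rcases ha.2 with h | h | h
    · exact Or.inl (Or.inl h)
    · exact Or.inl (Or.inr ⟨ha.1, h.1, h.2⟩)
    · exact Or.inr ⟨ha.1, h⟩
  have h4 := (card_le_card h3).trans (card_union_le _ _)
  have h5 := card_union_le {0} (Ex (Polynomial.X : ℤ[X]) N X η)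
  rw [card_singleton] at h5
  have h6 : ((Bd N X η).card : ℝ) ≤ 1 + ((Ex (Polynomial.X : ℤ[X]) N X η).card : ℝ) +
      (((Ioc N (N + (X : ℤ))).filter (fun a => a ≠ 0 ∧
        η * Real.log (Real.log X) < ((Qs a).card : ℝ))).card : ℝ) := by
    exact_mod_cast h4.trans (Nat.add_le_add_right h5 _)
  have h7 : 1 ≤ ε / 3 * X := by
    have e1 : 3 / ε ≤ X := hM3.trans (by exact_mod_cast (by omega : M3 ≤ X))
    rw [div_le_iff₀ hε] at e1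
    linarith
  linarith

lemma pairA (X : ℕ) (g : ℕ → ℤ) (F : ℕ → Finset ℤ) :
    ((Icc 1 X ×ˢ Icc 1 X).filter (fun t : ℕ × ℕ => g t.2 + (t.1 : ℤ) ∈ F t.2)).card ≤
      ∑ t ∈ Icc 1 X, (F t).card := by
  rw [card_filter, sum_product_right]
  refine sum_le_sum fun t _ => ?_
  rw [← card_filter]
  refine card_le_card_of_injOn (fun s : ℕ => g t + (s : ℤ)) ?_ ?_
  · intro s hs
    have := (mem_filter.1 (mem_coe.1 hs)).2
    exact this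
  · intro s _ s' _ h
    have h' : g t + (s : ℤ) = g t + (s' : ℤ) := h
    omega

lemma pairB (X : ℕ) (g : ℕ → ℤ) (F : ℕ → Finset ℤ) :
    ((Icc 1 X ×ˢ Icc 1 X).filter (fun t : ℕ × ℕ => g t.1 + (t.2 : ℤ) ∈ F t.1)).card ≤
      ∑ t ∈ Icc 1 X, (F t).card := by
  rw [card_filter, sum_product]
  refine sum_le_sum fun t _ => ?_
  rw [← card_filter]
  refine card_le_card_of_injOn (fun s : ℕ => g t + (s : ℤ)) ?_ ?_
  · intro s hs
    have := (mem_filter.1 (mem_coe.1 hs)).2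
    exact this
  · intro s _ s' _ h
    have h' : g t + (s : ℤ) = g t + (s' : ℤ) := h
    omega

open Classical in
theorem cnt2_of (hNO : NO) : ∀ (D : ℤ), D ≠ 0 → ∀ (δ ε : ℝ) (L : ℕ), 0 < δ → 0 < ε →
  ∃ X0 : ℕ, ∀ (N1 N2 : ℤ) (X : ℕ), X0 ≤ X → N1.natAbs ≤ X ^ L → N2.natAbs ≤ X ^ L →
    (((Icc 1 X ×ˢ Icc 1 X).filter (fun t : ℕ × ℕ =>
      IsCoprime (N1 + (t.1 : ℤ)) (N2 + (t.2 : ℤ)) ∧
      ¬ (N1 + (t.1 : ℤ) ≠ 0 ∧ N2 + (t.2 : ℤ) ≠ 0 ∧ N1 + (t.1 : ℤ) ≠ N2 + (t.2 : ℤ) ∧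
        (1 - δ) * Real.log (Real.log X) +
          ((C1x (D * (N1 + (t.1 : ℤ))) (D * (N2 + (t.2 : ℤ)))).card : ℝ) ≤
        ((GAx (D * (N1 + (t.1 : ℤ))) (D * (N2 + (t.2 : ℤ)))).card : ℝ)))).card : ℝ) ≤
      ε * X ^ 2 := by
  intro D hD δ ε L hδ hε
  set η : ℝ := δ / 10 with hη
  have hη0 : 0 < η := by positivity
  obtain ⟨M1, hM1⟩ := card_Bd hNO (L + 2) η (ε / 3) hη0 (by positivity)
  have e1 := tendsto_LL.eventually_ge_atTop ((3 * D.natAbs.primeFactors.card + 22 : ℕ) / η : ℝ)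
  obtain ⟨M2, hM2⟩ := Filter.eventually_atTop.1 e1
  refine ⟨M1 + M2 + 3, fun N1 N2 X hX hN1 hN2 => ?_⟩
  have h1 := hM2 X (by omega)
  rw [div_le_iff₀ hη0] at h1
  set LL := Real.log (Real.log X) with hLL
  have hc0 : (0 : ℝ) ≤ ((3 * D.natAbs.primeFactors.card + 22 : ℕ) : ℝ) := Nat.cast_nonneg _
  have hLL0 : 0 ≤ LL := by
    by_contra h
    push Not at h
    nlinarith
  -- the sizes
  have hp0 : X ^ L ≤ X ^ (L + 1) := Nat.pow_le_pow_right (by omega) (by omega)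
  have hp1 : X ≤ X ^ (L + 1) := Nat.le_self_pow (by omega) _
  have hp2 : 3 * X ^ (L + 1) ≤ X ^ (L + 2) := by
    rw [show X ^ (L + 2) = X * X ^ (L + 1) by ring]
    exact Nat.mul_le_mul_right _ (by omega)
  have hs1 : ∀ N : ℤ, N.natAbs ≤ 2 * X ^ L + X → |N| ≤ (X : ℤ) ^ (L + 2) := by
    intro N hN
    have h2 : N.natAbs ≤ X ^ (L + 2) := by omega
    have h3 : ((N.natAbs : ℕ) : ℤ) ≤ ((X ^ (L + 2) : ℕ) : ℤ) := by exact_mod_cast h2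
    push_cast at h3
    exact h3
  have hb1 := hM1 N1 X (by omega) (hs1 N1 (by omega))
  have hb2 := hM1 N2 X (by omega) (hs1 N2 (by omega))
  have hb3 : ∀ t ∈ Icc 1 X, ((Bd (N1 - (N2 + (t : ℤ))) X η).card : ℝ) ≤ ε / 3 * X := by
    intro t ht
    rw [mem_Icc] at ht
    exact hM1 _ X (by omega) (hs1 _ (by omega))
  -- the bad pairs
  have hsub : ((Icc 1 X ×ˢ Icc 1 X).filter (fun t : ℕ × ℕ =>
      IsCoprime (N1 + (t.1 : ℤ)) (N2 + (t.2 : ℤ)) ∧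
      ¬ (N1 + (t.1 : ℤ) ≠ 0 ∧ N2 + (t.2 : ℤ) ≠ 0 ∧ N1 + (t.1 : ℤ) ≠ N2 + (t.2 : ℤ) ∧
        (1 - δ) * LL +
          ((C1x (D * (N1 + (t.1 : ℤ))) (D * (N2 + (t.2 : ℤ)))).card : ℝ) ≤
        ((GAx (D * (N1 + (t.1 : ℤ))) (D * (N2 + (t.2 : ℤ)))).card : ℝ)))) ⊆
      ((Icc 1 X ×ˢ Icc 1 X).filter (fun t : ℕ × ℕ => N1 + (t.1 : ℤ) ∈ Bd N1 X η) ∪
        (Icc 1 X ×ˢ Icc 1 X).filter (fun t : ℕ × ℕ => N2 + (t.2 : ℤ) ∈ Bd N2 X η)) ∪
      (Icc 1 X ×ˢ Icc 1 X).filter (fun t : ℕ × ℕ =>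
        (N1 - (N2 + (t.2 : ℤ))) + (t.1 : ℤ) ∈ Bd (N1 - (N2 + (t.2 : ℤ))) X η) := by
    intro t ht
    rw [mem_filter] at ht
    obtain ⟨ht1, hco, ht2⟩ := ht
    rw [mem_union, mem_union, mem_filter, mem_filter, mem_filter]
    by_contra hcon
    push Not at hcon
    obtain ⟨⟨c1, c2⟩, c3⟩ := hcon
    replace c1 := c1 ht1
    replace c2 := c2 ht1
    replace c3 := c3 ht1
    have ht1' := ht1
    rw [mem_product, mem_Icc, mem_Icc] at ht1'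
    obtain ⟨⟨r1, r2⟩, r3, r4⟩ := ht1'
    rw [mem_Bd] at c1 c2 c3
    push Not at c1 c2 c3
    obtain ⟨a0, a1, a2⟩ := c1 (by rw [mem_Ioc]; omega)
    obtain ⟨b0, b1, b2⟩ := c2 (by rw [mem_Ioc]; omega)
    obtain ⟨d0, d1, -⟩ := c3 (by rw [mem_Ioc]; omega)
    set a : ℤ := N1 + (t.1 : ℤ) with ha
    set b : ℤ := N2 + (t.2 : ℤ) with hb
    have hab : N1 - b + (t.1 : ℤ) = a - b := by rw [ha]; ring
    rw [hab] at d0 d1
    have hne : a ≠ b := sub_ne_zero.1 d0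
    refine ht2 ⟨a0, b0, hne, ?_⟩
    have k1 := main_ineq hD a0 b0 hne hco
    have k2 : (a.natAbs.primeFactors.card : ℝ) + b.natAbs.primeFactors.card +
        (C1x (D * a) (D * b)).card ≤ (GAx (D * a) (D * b)).card + (Qs a).card + (Qs b).card +
          (a - b).natAbs.primeFactors.card + ((3 * D.natAbs.primeFactors.card + 22 : ℕ) : ℝ) := by
      exact_mod_cast k1
    have k3 := (abs_le.1 (a1 a0)).1
    have k4 := (abs_le.1 (b1 b0)).1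
    have k5 := (abs_le.1 (d1 d0)).2
    have k6 := a2 a0
    have k7 := b2 b0
    have k8 : δ * LL = 10 * (η * LL) := by rw [hη]; ring
    have k9 : 0 ≤ η * LL := by positivity
    have k10 : ((3 * D.natAbs.primeFactors.card + 22 : ℕ) : ℝ) ≤ η * LL := by linarith
    nlinarith
  have hX0 : (0 : ℝ) ≤ X := Nat.cast_nonneg X
  have n1 : (((Icc 1 X ×ˢ Icc 1 X).filter (fun t : ℕ × ℕ =>
      N1 + (t.1 : ℤ) ∈ Bd N1 X η)).card : ℝ) ≤ ε / 3 * X ^ 2 := by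
    have h2 := pairA X (fun _ => N1) (fun _ => Bd N1 X η)
    rw [sum_const, Nat.card_Icc, smul_eq_mul, Nat.add_sub_cancel] at h2
    have h3 : (((Icc 1 X ×ˢ Icc 1 X).filter (fun t : ℕ × ℕ =>
      N1 + (t.1 : ℤ) ∈ Bd N1 X η)).card : ℝ) ≤ X * (Bd N1 X η).card := by exact_mod_cast h2
    nlinarith
  have n2 : (((Icc 1 X ×ˢ Icc 1 X).filter (fun t : ℕ × ℕ =>
      N2 + (t.2 : ℤ) ∈ Bd N2 X η)).card : ℝ) ≤ ε / 3 * X ^ 2 := by
    have h2 := pairB X (fun _ => N2) (fun _ => Bd N2 X η)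
    rw [sum_const, Nat.card_Icc, smul_eq_mul, Nat.add_sub_cancel] at h2
    have h3 : (((Icc 1 X ×ˢ Icc 1 X).filter (fun t : ℕ × ℕ =>
      N2 + (t.2 : ℤ) ∈ Bd N2 X η)).card : ℝ) ≤ X * (Bd N2 X η).card := by exact_mod_cast h2
    nlinarith
  have n3 : (((Icc 1 X ×ˢ Icc 1 X).filter (fun t : ℕ × ℕ =>
        (N1 - (N2 + (t.2 : ℤ))) + (t.1 : ℤ) ∈ Bd (N1 - (N2 + (t.2 : ℤ))) X η)).card : ℝ) ≤
      ε / 3 * X ^ 2 := by
    have h2 := pairA X (fun s => N1 - (N2 + (s : ℤ))) (fun s => Bd (N1 - (N2 + (s : ℤ))) X η)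
    have h3 : (((Icc 1 X ×ˢ Icc 1 X).filter (fun t : ℕ × ℕ =>
        (N1 - (N2 + (t.2 : ℤ))) + (t.1 : ℤ) ∈ Bd (N1 - (N2 + (t.2 : ℤ))) X η)).card : ℝ) ≤
        ∑ s ∈ Icc 1 X, ((Bd (N1 - (N2 + (s : ℤ))) X η).card : ℝ) := by exact_mod_cast h2
    refine h3.trans ((sum_le_sum hb3).trans ?_)
    rw [sum_const, Nat.card_Icc, nsmul_eq_mul, Nat.add_sub_cancel]
    exact le_of_eq (by ring)
  have hfin := (card_le_card hsub).trans ((card_union_le _ _).trans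
    (Nat.add_le_add_right (card_union_le _ _) _))
  have hfin' : (((Icc 1 X ×ˢ Icc 1 X).filter (fun t : ℕ × ℕ =>
      IsCoprime (N1 + (t.1 : ℤ)) (N2 + (t.2 : ℤ)) ∧
      ¬ (N1 + (t.1 : ℤ) ≠ 0 ∧ N2 + (t.2 : ℤ) ≠ 0 ∧ N1 + (t.1 : ℤ) ≠ N2 + (t.2 : ℤ) ∧
        (1 - δ) * LL +
          ((C1x (D * (N1 + (t.1 : ℤ))) (D * (N2 + (t.2 : ℤ)))).card : ℝ) ≤
        ((GAx (D * (N1 + (t.1 : ℤ))) (D * (N2 + (t.2 : ℤ)))).card : ℝ)))).card : ℝ) ≤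
      (((Icc 1 X ×ˢ Icc 1 X).filter (fun t : ℕ × ℕ => N1 + (t.1 : ℤ) ∈ Bd N1 X η)).card : ℝ) +
        (((Icc 1 X ×ˢ Icc 1 X).filter (fun t : ℕ × ℕ => N2 + (t.2 : ℤ) ∈ Bd N2 X η)).card : ℝ) +
      (((Icc 1 X ×ˢ Icc 1 X).filter (fun t : ℕ × ℕ =>
        (N1 - (N2 + (t.2 : ℤ))) + (t.1 : ℤ) ∈ Bd (N1 - (N2 + (t.2 : ℤ))) X η)).card : ℝ) := by
    exact_mod_cast hfin
  linarith

end Pool.Agent.TH841.LS.CNT2f
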