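import Mathlib
import Pool.Agent.TH841.LS.Stm2
import Pool.Agent.TH841.PM.Bad
import Pool.Agent.TH79.LS.Cnt2C

/-!
# Project LS: the count for pairs
-/

set_option autoImplicit false

namespace Pool.Agent.TH841.LS.CNT2f

open Finset Polynomial

/-- LS-CNT2 -/
theorem cnt2 : Pool.Agent.TH841.LS.CNT2 :=
  cnt2_of fun B δ ε hδ hε => Pool.Agent.TH841.PM.BADf.normal' Polynomial.X
    Polynomial.prime_X.irreducible (by rw [Polynomial.natDegree_X]; exact one_pos) B δ ε hδ hε

end Pool.Agent.TH841.LS.CNT2f
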